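import Pool.Agent.W401.WC.Disp
import Pool.Agent.W401.WC.Counter

/-!
# Extremal weakened convex functions: the case `m = 4`
-/

open Finset Pool.Agent.W401.WC

namespace Pool.Agent.Results.MP_56f843_an.FourPoint

theorem cls_four : Cls 4 (Tk 4) := by
  have e : ∀ x, Tk 4 x = ph x := fun x => Tk_eq (by norm_num) x
  refine ⟨?_, ?_, ?_⟩
  · rw [e]; exact (phi_zero 4).le
  · rw [e]
    have := phi_int 4 1
    push_cast at this
    exact this.le
  · intro x hx
    have h01 := hx.2.1 0 (by norm_num)
    have h12 := hx.2.1 1 (by norm_num)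
    have h23 := hx.2.1 2 (by norm_num)
    have key := PP_final (x 0) (x 1) (x 2) (x 3) h01 h12 h23
    simp only [e, sum_range_succ, sum_range_zero, zero_add]
    norm_num at key ⊢
    linarith

/-- The extremal function for `m = 4` is the sixteen-fold sum of the problem file; it is attained by
a continuous member of the class, and dominates every member bounded above on `[0,1]`. -/
theorem result :
    (∀ x ∈ Set.Icc (0 : ℝ) 1, Ext 4 x = Tk 4 x) ∧
    Cls 4 (Tk 4) ∧ Continuous (Tk 4) ∧
    (∀ f : ℝ → ℝ, Cls 4 f → BddAbove (f '' Set.Icc 0 1) →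
      ∀ x ∈ Set.Icc (0 : ℝ) 1, f x ≤ Tk 4 x) := by
  refine ⟨?_, cls_four, ?_, ?_⟩
  · intro x hx
    have hb : BddAbove (Tk 4 '' Set.Icc 0 1) := by
      refine ⟨4 / 3, ?_⟩
      rintro y ⟨z, _, rfl⟩
      have e : Tk 4 z = ph z := Tk_eq (by norm_num) z
      rw [e]; exact ph_le z
    refine le_antisymm ?_ ?_
    · refine Ext_le (by norm_num) fun f hf hfb => ?_
      rw [Tk_eq (by norm_num)]
      exact upper_bdd (by norm_num) hf hfb x hx
    · refine le_csSup ⟨Tk 4 x, ?_⟩ ⟨Tk 4, cls_four, hb, rfl⟩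
      rintro y ⟨f, hf, hfb, rfl⟩
      rw [Tk_eq (by norm_num)]
      exact upper_bdd (by norm_num) hf hfb x hx
  · have e : Tk 4 = phi 4 := funext fun x => Tk_eq (by norm_num) x
    rw [e]; exact phi_cont (by norm_num)
  · intro f hf hb x hx
    rw [Tk_eq (by norm_num)]; exact upper_bdd (by norm_num) hf hb x hx

end Pool.Agent.Results.MP_56f843_an.FourPoint
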